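import Mathlib
import Pool.Agent.W484.CK.NCChow
import Pool.Agent.W484.CH.Gen

/-!
# Tensor products of noncommutative motives over finite fields: definitions
-/

set_option autoImplicit false

open CategoryTheory AlgebraicGeometry

universe u v w

namespace Pool.Agent.T9h37.NK

open Pool.Agent.H914 Pool.Agent.H914.VarClass Pool.Agent.H914.VarClass.Obj
  Pool.Agent.W492.BB Pool.Agent.W484.CK

variable {k : Type u} [Field k] {𝒱 : VarClass k}

section chow

variable (C : TheoryData.{u, v, 0} 𝒱 ℚ) {W X Z : 𝒱.Obj}

/-- The self-correspondence `e × 1` of `X × Z`, for a self-correspondence `e` of `X`. -/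
noncomputable def leftRelative (Z : 𝒱.Obj) {X : 𝒱.Obj} (e : C.A (X.prod X)) :
    C.A ((X.prod Z).prod (X.prod Z)) :=
  C.down (Obj.lift (prodMap (fst X X) (𝟙 Z)) (prodMap (snd X X) (𝟙 Z))) (C.up (fst (X.prod X) Z) e)

/-- The tensor product `e × e'` of the self-correspondences `e` of `X` and `e'` of `Z`: the
self-correspondence `e × 1` of `X × Z` followed by `1 × e'`. The pair `(X × Z, e × e')` is the tensor
product of the noncommutative motives `(X, e)` and `(Z, e')`. -/
noncomputable def tensor (e : C.A (X.prod X)) (e' : C.A (Z.prod Z)) :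
    C.A ((X.prod Z).prod (X.prod Z)) :=
  compose C (leftRelative C Z e) (relative C X e')

/-- The composite of a list of self-correspondences of `W`. -/
noncomputable def composite : List (C.A (W.prod W)) → C.A (W.prod W)
  | [] => diagonal C W
  | Γ :: L => compose C Γ (composite L)

/-- The classes `D j` are a basis of the vector space `K_0(X, e)_ℚ`. -/
structure IsBasisOf (e : C.A (X.prod X)) {J : Type} [Fintype J] (D : J → C.A X) : Prop where
  mem : ∀ j, InKZero e (D j)
  unique : ∀ x : C.A X, InKZero e x → ∃! c : J → ℚ, x = ∑ j, c j • D j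

end chow

variable {C : TheoryData.{u, v, 0} 𝒱 ℚ} {K : Type w} [Field K]
  (H : WeilTheoryData.{u, v, w} C K) {W X Z : 𝒱.Obj}

/-- The self-correspondence `Γ` (of arbitrary degree) acts as zero on the cohomology. -/
def ActsAsZero (Γ : C.A (W.prod W)) : Prop := ∀ a : H.A W, H.act (H.cl Γ) a = 0

/-- There is a number `n` such that all products of `n` self-correspondences of `W` which act as zero
on the cohomology are zero: the ideal of the homologically trivial endomorphisms of the
noncommutative motive of `W` is nilpotent. This holds if the motive of `W` is finite-dimensional in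
the sense of Kimura and O'Sullivan, for instance if `W` is dominated by a product of curves. -/
def ProductsVanish (W : 𝒱.Obj) : Prop :=
  ∃ n : ℕ, ∀ L : List (C.A (W.prod W)), L.length = n → (∀ Γ ∈ L, ActsAsZero H Γ) →
    composite C L = 0

/-- The operator `π^* - μ` on the cohomology. -/
def shift (π : X ⟶ X) (μ : K) (b : H.A X) : H.A X := H.up π b - μ • b

/-- `a` is a generalized eigenvector of the endomorphism `π` with eigenvalue `μ`, or zero: it is
killed by a power of `π^* - μ`. -/
def IsGenEigen (π : X ⟶ X) (μ : K) (a : H.A X) : Prop :=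
  ∃ n : ℕ, (shift H π μ)^[n] a = 0

/-- The eigenvalue `μ` of Frobenius occurs in the cohomology of `(X, e)`: some generalized
eigenvector with eigenvalue `μ` is not killed by `e`. (The correspondence `e` need not be
homogeneous; only the class of `μ` modulo powers of `Q` matters.) -/
def Occurs (π : X ⟶ X) (e : C.A (X.prod X)) (μ : K) : Prop :=
  ∃ a : H.A X, IsGenEigen H π μ a ∧ H.act (H.cl e) a ≠ 0

/-- The eigenvalues of `π` on the cohomology are algebraic numbers. -/
def HasAlgebraicEigenvalues [CharZero K] (π : X ⟶ X) : Prop :=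
  ∀ (μ : K) (a : H.A X), a ≠ 0 → H.up π a = μ • a → IsAlgebraic ℚ μ

/-- The Tate conjecture in the strong form for the noncommutative motive `(X, e)` over the field with
`Q` elements: for all generalized eigenvectors `a` of Frobenius with eigenvalue a power of `Q`,
`e a` is a linear combination of classes of elements of `K_0(X, e)_ℚ` (Tate conjecture and
semisimplicity), and numerically trivial elements of `K_0(X, e)_ℚ` are homologically trivial. -/
structure IsTate (π : X ⟶ X) (Q : ℕ) (e : C.A (X.prod X)) : Prop where
  span : ∀ (c : ℤ) (a : H.A X), IsGenEigen H π ((Q : K) ^ c) a →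
    H.act (H.cl e) a ∈ Submodule.span K {b | ∃ x : C.A X, InKZero e x ∧ b = H.cl x}
  num : ∀ x : C.A X, InKZero e x → IsNumTrivial H x → H.cl x = 0

/-- The eigenvalues of Frobenius of `(X, e)` and `(Z, e')` are separated: if the product of an
eigenvalue of `(X, e)` and an eigenvalue of `(Z, e')` is a power of `Q`, then both are powers of
`Q`. -/
def AreSeparated (πX : X ⟶ X) (e : C.A (X.prod X)) (πZ : Z ⟶ Z) (e' : C.A (Z.prod Z)) (Q : ℕ) :
    Prop :=
  ∀ (μ ρ : K) (c : ℤ), Occurs H πX e μ → Occurs H πZ e' ρ → μ * ρ = (Q : K) ^ c →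
    ∃ d : ℤ, μ = (Q : K) ^ d

/-- The Kunneth formula `K_0(X × Z, e × e')_ℚ = ⨁ D j × K_0(Z, e')_ℚ`, and the same for the kernels of
the Euler pairings. -/
structure TensorKunneth (e : C.A (X.prod X)) (e' : C.A (Z.prod Z)) {J : Type} [Fintype J]
    (D : J → C.A X) : Prop where
  mem : ∀ (j : J) (z : C.A Z), InKZero e' z → InKZero (tensor C e e') (times C (D j) z)
  unique : ∀ x : C.A (X.prod Z), InKZero (tensor C e e') x →
    ∃! z : J → C.A Z, (∀ j, InKZero e' (z j)) ∧ x = ∑ j, times C (D j) (z j)
  kernel : ∀ z : J → C.A Z,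
    IsNumTrivial H (∑ j, times C (D j) (z j)) ↔ ∀ j, IsNumTrivial H (z j)

/-- The assumptions on `𝒳 = (X, e)`, where `π` is the Frobenius endomorphism of `X`: `e` is an
idempotent, `π` acts on the Chow groups and on the cohomology as expected, products of sufficiently
many homologically trivial endomorphisms of the noncommutative motive of `X` are zero, and `𝒳`
satisfies the Tate conjecture in the strong form. -/
structure IsTateMotive [CharZero K] (π : X ⟶ X) (Q : ℕ) (e : C.A (X.prod X)) : Prop where
  idempotent : IsIdempotent C e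
  frobenius : IsFrobenius C π Q
  algebraic : HasAlgebraicEigenvalues H π
  nilpotent : ProductsVanish H X
  tate : IsTate H π Q e

/-- The assumptions on `𝒜 = (Z, e')` relative to `𝒳 = (X, e)`, where `πX` and `πZ` are the Frobenius
endomorphisms: `e'` is an idempotent, the Frobenius endomorphism `πX × πZ` of `X × Z` acts on the Chow
groups as expected, and `πZ` on the cohomology, products of sufficiently many homologically trivial
endomorphisms of the noncommutative motive of `X × Z` are zero, and the eigenvalues of `𝒳` and `𝒜` are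
separated. -/
structure IsSeparatedFrom [CharZero K] (πX : X ⟶ X) (e : C.A (X.prod X)) (Q : ℕ) (πZ : Z ⟶ Z)
    (e' : C.A (Z.prod Z)) : Prop where
  idempotent : IsIdempotent C e'
  frobenius : IsFrobenius C (prodMap πX πZ) Q
  algebraic : HasAlgebraicEigenvalues H πZ
  nilpotent : ProductsVanish H (X.prod Z)
  separated : AreSeparated H πX e πZ e' Q

/-- The conclusion: `K_0(𝒳)_ℚ` has a finite basis `D j` and its Euler pairing is nondegenerate, and for
all `𝒜 = (Z, e')` with eigenvalues separated from those of `𝒳 = (X, e)` the Kunneth formula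
`K_0(𝒳 ⊗ 𝒜)_ℚ = ⨁ D j × K_0(𝒜)_ℚ` holds, and the same for the kernels of the Euler pairings, and, if
`K_0(𝒳)_ℚ` is not zero, the Euler pairing of `𝒳 ⊗ 𝒜` is nondegenerate if and only if the one of `𝒜`
is. -/
def SatisfiesKunneth [CharZero K] (π : X ⟶ X) (Q : ℕ) (e : C.A (X.prod X)) : Prop :=
  ∃ (J : Type) (_ : Fintype J) (D : J → C.A X), IsBasisOf C e D ∧ IsNondegenerate H e ∧
    ∀ (Z : 𝒱.Obj) (πZ : Z ⟶ Z) (e' : C.A (Z.prod Z)), IsSeparatedFrom H π e Q πZ e' →
      TensorKunneth H e e' D ∧
        (Nonempty J → (IsNondegenerate H (tensor C e e') ↔ IsNondegenerate H e'))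

end Pool.Agent.T9h37.NK
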