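import Pool.Agent.T9h37.NK.Gen

/-!
# Dual systems
-/

set_option autoImplicit false
set_option linter.unusedSectionVars false

open CategoryTheory AlgebraicGeometry

universe u v w

namespace Pool.Agent.T9h37.NK

open Module Polynomial Pool.Agent.H914 Pool.Agent.H914.VarClass Pool.Agent.H914.VarClass.Obj
  Pool.Agent.W492.BB Pool.Agent.W550.Corr Pool.Agent.W484.TB Pool.Agent.W484.HS Pool.Agent.W484.CK
  Pool.Agent.W484

variable {k : Type u} [Field k] {𝒱 : VarClass k} {C : TheoryData.{u, v, 0} 𝒱 ℚ} {K : Type w}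
  [Field K] {H : WeilTheoryData.{u, v, w} C K} [hC : IsChow C] [hH : IsWeil H]
  [CharZero K] {W X Y Z : 𝒱.Obj}

theorem inKZero_add {e : C.A (X.prod X)} {x y : C.A X} (hx : InKZero e x) (hy : InKZero e y) :
    InKZero e (x + y) := by
  change C.act e (x + y) = x + y
  rw [act_map_add, show C.act e x = x from hx, show C.act e y = y from hy]

theorem inKZero_smul {e : C.A (X.prod X)} {x : C.A X} (c : ℚ) (hx : InKZero e x) :
    InKZero e (c • x) := by
  change C.act e (c • x) = c • x
  rw [act_map_smul, show C.act e x = x from hx]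

theorem inKZero_zero {e : C.A (X.prod X)} : InKZero e (0 : C.A X) := C.act_map_zero e

theorem inKZero_sum {e : C.A (X.prod X)} {J : Type} (S : Finset J) (x : J → C.A X)
    (hx : ∀ j ∈ S, InKZero e (x j)) : InKZero e (∑ j ∈ S, x j) := by
  change C.act e (∑ j ∈ S, x j) = ∑ j ∈ S, x j
  rw [act_map_sum]
  exact Finset.sum_congr rfl fun j hj => hx j hj

/-- The push-forward to `Z` of a class on `X` is a constant. -/
theorem exists_scalar_chow (hS : CH.IsStandard H) (X Z : 𝒱.Obj) (z : C.A X) :
    ∃ c : ℚ, C.push (snd X Z) (C.pull (fst X Z) z) = c • 1 := by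
  refine CH.homog_induction C (p := fun z => ∃ c : ℚ,
    C.push (snd X Z) (C.pull (fst X Z) z) = c • 1) ?_ ?_ z
  · intro i z hi
    rcases lt_trichotomy i X.dim with h1 | h1 | h1
    · refine ⟨0, ?_⟩
      have h2 := C.push_mem (snd X Z) (C.pull_mem (fst X Z) hi)
      rw [C.gr_neg _ _ (by
        rw [Obj.dim_prod]
        push_cast
        linarith)] at h2
      rw [(Submodule.mem_bot _).1 h2, zero_smul]
    · have h2 := C.push_mem (snd X Z) (C.pull_mem (fst X Z) hi)
      refine hS.chow_zero _ _ ?_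
      rw [h1, Obj.dim_prod] at h2
      push_cast at h2
      rw [show (X.dim : ℤ) + 1 * (Z.dim - (X.dim + Z.dim)) = 0 by ring] at h2
      exact h2
    · refine ⟨0, ?_⟩
      rw [hS.chow_top _ _ h1] at hi
      rw [(Submodule.mem_bot _).1 hi, map_zero, map_zero, zero_smul]
  · rintro a b ⟨c, hc⟩ ⟨d, hd⟩
    exact ⟨c + d, by rw [map_add, map_add, hc, hd, add_smul]⟩

theorem one_ne_zero_chow (hS : CH.IsStandard H) (Z : 𝒱.Obj) : (1 : C.A Z) ≠ 0 := by
  intro h0
  have := hS.nontrivial Z
  have h2 := congrArg (H.cl (X := Z)) h0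
  rw [map_one, map_zero] at h2
  exact one_ne_zero h2

/-- The degree of cycles. -/
theorem exists_degree (hS : CH.IsStandard H) (X Z : 𝒱.Obj) : ∃ deg : C.A X →ₗ[ℚ] ℚ, ∀ z,
    C.push (snd X Z) (C.pull (fst X Z) z) = deg z • 1 := by
  have h1 := one_ne_zero_chow hS Z
  have hker : LinearMap.ker (LinearMap.toSpanSingleton ℚ (C.A Z) 1) = ⊥ := by
    rw [LinearMap.ker_eq_bot']
    intro c hc
    rw [LinearMap.toSpanSingleton_apply] at hc
    exact (smul_eq_zero.1 hc).resolve_right h1
  obtain ⟨φ, hφ⟩ := LinearMap.exists_leftInverse_of_injective _ hker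
  refine ⟨φ ∘ₗ C.push (snd X Z) ∘ₗ (C.pull (fst X Z)).toLinearMap, fun z => ?_⟩
  obtain ⟨c, hc⟩ := exists_scalar_chow hS X Z z
  have h4 : φ (C.push (snd X Z) (C.pull (fst X Z) z)) = c := by
    rw [hc]
    have h5 := LinearMap.congr_fun hφ c
    rw [LinearMap.comp_apply, LinearMap.toSpanSingleton_apply, LinearMap.id_apply] at h5
    exact h5
  change _ = φ (C.push (snd X Z) (C.pull (fst X Z) z)) • (1 : C.A Z)
  rw [h4, hc]

/-- The span of the classes of the elements of `K_0(X, e)_ℚ`. -/
noncomputable def clSpan (H : WeilTheoryData.{u, v, w} C K) (e : C.A (X.prod X)) :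
    Submodule K (H.A X) :=
  Submodule.span K {b | ∃ x : C.A X, InKZero e x ∧ b = H.cl x}

/-- A basis of the span of the classes. -/
theorem exists_classes (hS : CH.IsStandard H) (e : C.A (X.prod X)) :
    ∃ (m : ℕ) (D : Fin m → C.A X), (∀ t, InKZero e (D t)) ∧
      LinearIndependent K (fun t => H.cl (D t)) ∧
      clSpan H e ≤ Submodule.span K (Set.range fun t => H.cl (D t)) := by
  classical
  have := hS.finite X
  obtain ⟨S, hS1, hS2, hS3⟩ := exists_linearIndependent K
    {b | ∃ x : C.A X, InKZero e x ∧ b = H.cl x}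
  have hfin : S.Finite := hS3.setFinite
  have hft := hfin.fintype
  let e' := Fintype.equivFin S
  have hD : ∀ t : Fin (Fintype.card S), ∃ x, InKZero e x ∧ (e'.symm t : H.A X) = H.cl x :=
    fun t => hS1 (e'.symm t).2
  choose D hDm hDcl using hD
  have hli : LinearIndependent K (fun t => H.cl (D t)) := by
    have h2 : (fun t => H.cl (D t)) = (fun x : S => (x : H.A X)) ∘ e'.symm := by
      funext t
      exact (hDcl t).symm
    rw [h2]
    exact hS3.comp _ e'.symm.injective
  refine ⟨Fintype.card S, D, hDm, hli, ?_⟩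
  unfold clSpan
  rw [← hS2]
  refine Submodule.span_mono ?_
  intro x hx
  refine ⟨e' ⟨x, hx⟩, ?_⟩
  beta_reduce
  rw [← hDcl, Equiv.symm_apply_apply]

/-- **The dual system.** -/
theorem exists_duals (hS : CH.IsStandard H) {e : C.A (X.prod X)}
    (hnum : ∀ x : C.A X, InKZero e x → IsNumTrivial H x → H.cl x = 0) {m : ℕ}
    {D : Fin m → C.A X} (hD : ∀ t, InKZero e (D t))
    (hli : LinearIndependent K (fun t => H.cl (D t))) (Z : 𝒱.Obj) :
    ∃ E : Fin m → C.A X, ∀ t u, C.push (snd X Z) (C.pull (fst X Z) (D t * E u)) =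
      if t = u then 1 else 0 := by
  classical
  obtain ⟨deg, hdeg⟩ := exists_degree hS X Z
  let ψ : C.A X →ₗ[ℚ] (Fin m → ℚ) :=
    LinearMap.pi fun t => deg ∘ₗ LinearMap.mulLeft ℚ (D t)
  have hψ : ∀ E t, ψ E t = deg (D t * E) := fun _ _ => rfl
  have hsurj : LinearMap.range ψ = ⊤ := by
    by_contra hne
    obtain ⟨f, hf0, hf⟩ := Submodule.exists_le_ker_of_lt_top _ (lt_top_iff_ne_top.2 hne)
    apply hf0
    set z : C.A X := ∑ t, f (Pi.single t 1) • D t with hz
    have hzK : InKZero e z := inKZero_sum _ _ fun t _ => inKZero_smul _ (hD t)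
    have hcl : H.cl z = 0 := by
      refine hnum z hzK fun w => ?_
      apply CH.tr_eq_zero_of_push Z
      have h2 : C.push (snd X Z) (C.pull (fst X Z) (z * w)) = 0 := by
        rw [hdeg]
        have h4 : f (ψ w) = 0 := hf ⟨_, rfl⟩
        have h5 : deg (z * w) = f (ψ w) := by
          have h6 : ψ w = ∑ t, deg (D t * w) • Pi.single (M := fun _ => ℚ) t 1 := by
            funext t
            rw [hψ, Finset.sum_apply]
            simp [Pi.single_apply]
          rw [h6, map_sum, hz, Finset.sum_mul, map_sum]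
          refine Finset.sum_congr rfl fun t _ => ?_
          rw [smul_mul_assoc, map_smul, map_smul, smul_eq_mul, smul_eq_mul, mul_comm]
        rw [h5, h4, zero_smul]
      rw [← H.cl_pull, ← H.cl_push]
      change H.cl (C.push (snd X Z) (C.pull (fst X Z) (z * w))) = 0
      rw [h2, map_zero]
    have h2 := Fintype.linearIndependent_iff.1 hli (fun t => ((f (Pi.single t 1) : ℚ) : K))
      (by
        rw [← hcl, hz, map_sum]
        exact Finset.sum_congr rfl fun t _ => (CH.cl_smul _ _).symm)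
    ext t
    have h3 := h2 t
    have h4 : f (Pi.single t 1) = 0 := by exact_mod_cast h3
    simpa using h4
  have hE : ∀ u, ∃ E : C.A X, ψ E = Pi.single u 1 := by
    intro u
    have h2 : (Pi.single u 1 : Fin m → ℚ) ∈ LinearMap.range ψ := by
      rw [hsurj]
      exact Submodule.mem_top
    exact h2
  choose E hE using hE
  refine ⟨E, fun t u => ?_⟩
  rw [hdeg, ← hψ, hE, Pi.single_apply]
  split_ifs
  · rw [one_smul]
  · rw [zero_smul]

end Pool.Agent.T9h37.NK
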