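import Pool.Agent.T9h37.NK.Nil

/-!
# Generalized eigenvectors on a product
-/

set_option autoImplicit false
set_option linter.unusedSectionVars false

open CategoryTheory AlgebraicGeometry

universe u v w

namespace Pool.Agent.T9h37.NK

open Module Polynomial Pool.Agent.H914 Pool.Agent.H914.VarClass Pool.Agent.H914.VarClass.Obj
  Pool.Agent.W492.BB Pool.Agent.W550.Corr Pool.Agent.W484.TB Pool.Agent.W484.HS Pool.Agent.W484.CK
  Pool.Agent.W484

variable {k : Type u} [Field k] {𝒱 : VarClass k} {C : TheoryData.{u, v, 0} 𝒱 ℚ} {K : Type w}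
  [Field K] {H : WeilTheoryData.{u, v, w} C K} [hC : IsChow C] [hH : IsWeil H]
  [CharZero K] {W X Y Z : 𝒱.Obj}

theorem isGenEigen_iff {π : X ⟶ X} {μ : K} {a : H.A X} :
    IsGenEigen H π μ a ↔ a ∈ (CH.frob H π).maxGenEigenspace μ := by
  rw [Module.End.mem_maxGenEigenspace]
  exact exists_congr fun n => by rw [shift_eq]; rfl

/-- A step in the generalized eigenspace. -/
theorem mem_gen_of_step {V : Type*} [AddCommGroup V] [Module K V] (f : Module.End K V) (μ : K)
    (v : V) (h : (f - μ • (1 : Module.End K V)) v ∈ f.maxGenEigenspace μ) :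
    v ∈ f.maxGenEigenspace μ := by
  rw [Module.End.mem_maxGenEigenspace] at h ⊢
  obtain ⟨n, hn⟩ := h
  exact ⟨n + 1, by rw [pow_succ, Module.End.mul_apply, hn]⟩

theorem ext_sub_left (a a' : H.A X) (h : H.A Z) : H.ext (a - a') h = H.ext a h - H.ext a' h := by
  rw [TheoryData.ext, map_sub, sub_mul]
  rfl

theorem ext_sub_right (a : H.A X) (h h' : H.A Z) : H.ext a (h - h') = H.ext a h - H.ext a h' := by
  rw [TheoryData.ext, map_sub, mul_sub]
  rfl

theorem ext_smul_left' (c : K) (a : H.A X) (h : H.A Z) : H.ext (c • a) h = c • H.ext a h := by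
  rw [CH.ext_smul_left, CH.ext_smul_right]

theorem ext_mem_gen {πX : X ⟶ X} {πZ : Z ⟶ Z} {μ ρ : K} (n : ℕ) : ∀ (s t : ℕ) (a : H.A X)
    (y : H.A Z), s + t = n → ((CH.frob H πX - μ • (1 : Module.End K (H.A X))) ^ s) a = 0 →
    ((CH.frob H πZ - ρ • (1 : Module.End K (H.A Z))) ^ t) y = 0 →
    H.ext a y ∈ (CH.frob H (prodMap πX πZ)).maxGenEigenspace (μ * ρ) := by
  induction n with
  | zero =>
    intro s t a y hst ha _
    have hs : s = 0 := by omega
    subst hs
    rw [pow_zero, Module.End.one_apply] at ha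
    rw [ha, H.ext_zero_left]
    exact Submodule.zero_mem _
  | succ n ih =>
    intro s t a y hst ha hy
    rcases Nat.eq_zero_or_pos s with hs | hs
    · subst hs
      rw [pow_zero, Module.End.one_apply] at ha
      rw [ha, H.ext_zero_left]
      exact Submodule.zero_mem _
    rcases Nat.eq_zero_or_pos t with ht | ht
    · subst ht
      rw [pow_zero, Module.End.one_apply] at hy
      rw [hy, H.ext_zero_right]
      exact Submodule.zero_mem _
    apply mem_gen_of_step
    have h1 : (CH.frob H (prodMap πX πZ) - (μ * ρ) • (1 : Module.End K (H.A (X.prod Z))))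
        (H.ext a y) = H.ext ((CH.frob H πX - μ • (1 : Module.End K (H.A X))) a)
          (CH.frob H πZ y) + μ • H.ext a ((CH.frob H πZ - ρ • (1 : Module.End K (H.A Z))) y) := by
      rw [LinearMap.sub_apply, LinearMap.smul_apply, Module.End.one_apply, LinearMap.sub_apply,
        LinearMap.smul_apply, Module.End.one_apply, LinearMap.sub_apply,
        LinearMap.smul_apply, Module.End.one_apply, ext_sub_left, ext_sub_right, ext_smul_left',
        CH.ext_smul_right, smul_sub, smul_smul]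
      have h2 : CH.frob H (prodMap πX πZ) (H.ext a y) =
          H.ext (CH.frob H πX a) (CH.frob H πZ y) := CH.pull_prodMap_ext _ _ _ _
      rw [h2]
      abel
    rw [h1]
    refine Submodule.add_mem _ (ih (s - 1) t _ _ (by omega) ?_ ?_)
      (Submodule.smul_mem _ _ (ih s (t - 1) _ _ (by omega) ha ?_))
    · rw [← Module.End.mul_apply, ← pow_succ, Nat.sub_add_cancel hs]
      exact ha
    · have h3 : Commute (CH.frob H πZ)
          ((CH.frob H πZ - ρ • (1 : Module.End K (H.A Z))) ^ t) :=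
        ((Commute.refl _).sub_right ((Commute.one_right _).smul_right ρ)).pow_right t
      rw [← Module.End.mul_apply, ← h3.eq, Module.End.mul_apply, hy, map_zero]
    · rw [← Module.End.mul_apply, ← pow_succ, Nat.sub_add_cancel ht]
      exact hy

variable (H) in
/-- The span of the products of generalized eigenvectors whose eigenvalues have the product `ν`. -/
noncomputable def prodSub (πX : X ⟶ X) (πZ : Z ⟶ Z) (ν : K) : Submodule K (H.A (X.prod Z)) :=
  Submodule.span K {c | ∃ (μ ρ : K) (a : H.A X) (y : H.A Z), μ * ρ = ν ∧ IsGenEigen H πX μ a ∧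
    IsGenEigen H πZ ρ y ∧ c = H.ext a y}

theorem prodSub_le {πX : X ⟶ X} {πZ : Z ⟶ Z} (ν : K) :
    prodSub H πX πZ ν ≤ (CH.frob H (prodMap πX πZ)).maxGenEigenspace ν := by
  refine Submodule.span_le.2 ?_
  rintro _ ⟨μ, ρ, a, y, rfl, ⟨s, ha⟩, ⟨t, hy⟩, rfl⟩
  rw [shift_eq] at ha hy
  exact ext_mem_gen (s + t) s t a y rfl ha hy

variable [IsAlgClosed K]

theorem ext_mem_iSup (hfin : ∀ X : 𝒱.Obj, Module.Finite K (H.A X)) {πX : X ⟶ X} {πZ : Z ⟶ Z}
    (a : H.A X) (y : H.A Z) :
    H.ext a y ∈ ⨆ ν, prodSub H πX πZ ν := by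
  have hX := hfin X
  have hZ := hfin Z
  have h1 : a ∈ ⨆ μ, (CH.frob H πX).maxGenEigenspace μ := by
    rw [Module.End.iSup_maxGenEigenspace_eq_top]
    exact Submodule.mem_top
  induction h1 using Submodule.iSup_induction' with
  | mem μ a ha =>
    have h2 : y ∈ ⨆ ρ, (CH.frob H πZ).maxGenEigenspace ρ := by
      rw [Module.End.iSup_maxGenEigenspace_eq_top]
      exact Submodule.mem_top
    induction h2 using Submodule.iSup_induction' with
    | mem ρ y hy =>
      exact Submodule.mem_iSup_of_mem (μ * ρ) (Submodule.subset_span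
        ⟨μ, ρ, a, y, rfl, isGenEigen_iff.2 ha, isGenEigen_iff.2 hy, rfl⟩)
    | zero =>
      rw [H.ext_zero_right]
      exact Submodule.zero_mem _
    | add y y' _ _ hy hy' =>
      rw [CH.ext_add_right]
      exact Submodule.add_mem _ hy hy'
  | zero =>
    rw [H.ext_zero_left]
    exact Submodule.zero_mem _
  | add a a' _ _ ha ha' =>
    rw [CH.ext_add_left]
    exact Submodule.add_mem _ ha ha'

theorem iSup_prodSub (hfin : ∀ X : 𝒱.Obj, Module.Finite K (H.A X)) {πX : X ⟶ X} {πZ : Z ⟶ Z} :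
    ⨆ ν, prodSub H πX πZ ν = ⊤ := by
  rw [eq_top_iff]
  intro w _
  refine CH.homog_induction H.toTheoryData (p := fun w => w ∈ ⨆ ν, prodSub H πX πZ ν) ?_ ?_ w
  · intro m w hw
    refine (Submodule.span_le.2 ?_ : _ ≤ _) (H.kunneth X Z m hw)
    rintro _ ⟨l, a, y, -, -, rfl⟩
    exact ext_mem_iSup hfin a y
  · intro a b ha hb
    exact Submodule.add_mem _ ha hb

/-- **Generalized eigenvectors on a product.** -/
theorem mem_prodSub (hfin : ∀ X : 𝒱.Obj, Module.Finite K (H.A X)) {πX : X ⟶ X} {πZ : Z ⟶ Z}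
    {μ : K} {w : H.A (X.prod Z)} (hw : IsGenEigen H (prodMap πX πZ) μ w) :
    w ∈ prodSub H πX πZ μ := by
  have hw' := isGenEigen_iff.1 hw
  have h1 : w ∈ ⨆ ν, prodSub H πX πZ ν := by
    rw [iSup_prodSub hfin]
    exact Submodule.mem_top
  rw [iSup_split_single _ μ, Submodule.mem_sup] at h1
  obtain ⟨s, hs, t, ht, rfl⟩ := h1
  have ht1 : t ∈ (CH.frob H (prodMap πX πZ)).maxGenEigenspace μ := by
    have h2 := Submodule.sub_mem _ hw' (prodSub_le μ hs)
    rwa [add_sub_cancel_left] at h2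
  have ht2 : t ∈ ⨆ (ν : K) (_ : ν ≠ μ), (CH.frob H (prodMap πX πZ)).maxGenEigenspace ν :=
    (iSup_mono fun ν => iSup_mono fun _ => prodSub_le ν) ht
  have h3 := Submodule.disjoint_def.1
    (Module.End.independent_maxGenEigenspace (CH.frob H (prodMap πX πZ)) μ) t ht1 ht2
  rw [h3, add_zero]
  exact hs

/-- Eigenvalues on the product are algebraic. -/
theorem algebraic_prod (hfin : ∀ X : 𝒱.Obj, Module.Finite K (H.A X)) {πX : X ⟶ X}
    {πZ : Z ⟶ Z} (hX : HasAlgebraicEigenvalues H πX) (hZ : HasAlgebraicEigenvalues H πZ) :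
    HasAlgebraicEigenvalues H (prodMap πX πZ) := by
  intro ν w hw0 hw
  have hgen : ∀ {Y : 𝒱.Obj} {π : Y ⟶ Y}, HasAlgebraicEigenvalues H π → ∀ (μ : K) (a : H.A Y),
      a ≠ 0 → IsGenEigen H π μ a → IsAlgebraic ℚ μ := by
    intro Y π hY μ a ha0 ha
    by_cases hμ : μ = 0
    · rw [hμ]
      exact isAlgebraic_zero
    obtain ⟨n, hn⟩ := ha
    rw [shift_eq] at hn
    obtain ⟨-, v, hv0, hv⟩ := CH.exists_eigen (CH.frob H π) 1 μ hμ n a ha0 (by
      rw [one_smul]
      exact hn)
    rw [div_one] at hv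
    exact hY μ v hv0 hv
  by_contra hν
  apply hw0
  have h1 : IsGenEigen H (prodMap πX πZ) ν w := by
    refine ⟨1, ?_⟩
    rw [shift_eq, pow_one, LinearMap.sub_apply, LinearMap.smul_apply, Module.End.one_apply, sub_eq_zero]
    exact hw
  have h2 := mem_prodSub hfin h1
  have h3 : prodSub H πX πZ ν ≤ ⊥ := by
    refine Submodule.span_le.2 ?_
    rintro _ ⟨μ, ρ, a, y, rfl, ha, hy, rfl⟩
    by_cases ha0 : a = 0
    · rw [ha0, H.ext_zero_left]
      exact Submodule.zero_mem _
    by_cases hy0 : y = 0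
    · rw [hy0, H.ext_zero_right]
      exact Submodule.zero_mem _
    exact absurd ((hgen hX μ a ha0 ha).mul (hgen hZ ρ y hy0 hy)) hν
  exact (Submodule.mem_bot _).1 (h3 h2)

end Pool.Agent.T9h37.NK
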