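import Pool.Agent.T9h37.NK.Dual

/-!
# The Kunneth formula for tensor products of noncommutative motives
-/

set_option autoImplicit false
set_option linter.unusedSectionVars false

open CategoryTheory AlgebraicGeometry

universe u v w

namespace Pool.Agent.T9h37.NK

open Module Polynomial Pool.Agent.H914 Pool.Agent.H914.VarClass Pool.Agent.H914.VarClass.Obj
  Pool.Agent.W492.BB Pool.Agent.W550.Corr Pool.Agent.W484.TB Pool.Agent.W484.HS Pool.Agent.W484.CK
  Pool.Agent.W484

variable {k : Type u} [Field k] {𝒱 : VarClass k} {C : TheoryData.{u, v, 0} 𝒱 ℚ} {K : Type w}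
  [Field K] {H : WeilTheoryData.{u, v, w} C K} [hC : IsChow C] [hH : IsWeil H]
  [CharZero K] {W X Y Z : 𝒱.Obj}

section act

theorem act_leftRelative (e : C.A (X.prod X)) (c : C.A (X.prod Z)) :
    C.act (leftRelative C Z e) c = C.extL e Z c := CH.act_span C _ _ _ _

theorem act_relative (e : C.A (Z.prod Z)) (c : C.A (X.prod Z)) :
    C.act (relative C X e) c = C.extR e X c := CH.act_span C _ _ _ _

theorem actH_leftRelative (e : C.A (X.prod X)) (c : H.A (X.prod Z)) :
    H.act (H.cl (leftRelative C Z e)) c = H.extL (H.cl e) Z c := by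
  have h1 : H.cl (leftRelative C Z e) = H.push (Obj.lift (prodMap (fst X X) (𝟙 Z))
      (prodMap (snd X X) (𝟙 Z))) (H.pull (fst (X.prod X) Z) (H.cl e)) := by
    rw [leftRelative]
    change H.cl (C.push _ (C.pull _ e)) = _
    rw [H.cl_push, H.cl_pull]
  rw [h1]
  exact CH.act_span H.toTheoryData _ _ _ _

theorem actH_relative (e : C.A (Z.prod Z)) (c : H.A (X.prod Z)) :
    H.act (H.cl (relative C X e)) c = H.extR (H.cl e) X c := by
  have h1 : H.cl (relative C X e) = H.push (Obj.lift (prodMap (𝟙 X) (fst Z Z))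
      (prodMap (𝟙 X) (snd Z Z))) (H.pull (snd X (Z.prod Z)) (H.cl e)) := by
    rw [relative]
    change H.cl (C.push _ (C.pull _ e)) = _
    rw [H.cl_push, H.cl_pull]
  rw [h1]
  exact CH.act_span H.toTheoryData _ _ _ _

theorem act_tensor_ext (e : C.A (X.prod X)) (e' : C.A (Z.prod Z)) (a : C.A X) (z : C.A Z) :
    C.act (tensor C e e') (C.ext a z) = C.ext (C.act e a) (C.act e' z) := by
  have h1 : C.act (tensor C e e') (C.ext a z) =
      C.act (relative C X e') (C.act (leftRelative C Z e) (C.ext a z)) := C.act_comp _ _ _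
  rw [h1, act_leftRelative, act_relative, C.extL_ext, C.extR_ext]
  intro c
  exact chow_mul_comm _ _

theorem actH_tensor_ext (e : C.A (X.prod X)) (e' : C.A (Z.prod Z)) (a : H.A X) (z : H.A Z) :
    H.act (H.cl (tensor C e e')) (H.ext a z) =
      H.ext (H.act (H.cl e) a) (H.act (H.cl e') z) := by
  have h1 : H.act (H.cl (tensor C e e')) (H.ext a z) =
      H.act (H.cl (relative C X e')) (H.act (H.cl (leftRelative C Z e)) (H.ext a z)) :=
    CH.act_cl_comp _ _ _
  rw [h1, actH_leftRelative, actH_relative, H.extL_ext, H.extR_ext]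
  intro c
  rw [← H.cl_pull]
  exact H.cl_central _ _

theorem times_eq (a : C.A X) (z : C.A Z) : times C a z = C.ext a z := rfl

end act

section pairing

variable {J : Type} [Fintype J] {D E : J → C.A X}

/-- The pairing of a class on `X × Z` with a class on `X`. -/
noncomputable def pairZ (E : C.A X) (x : C.A (X.prod Z)) : C.A Z :=
  C.push (snd X Z) (C.pull (fst X Z) E * x)

theorem pairZ_ext (a b : C.A X) (z : C.A Z) {c : ℚ}
    (h : C.push (snd X Z) (C.pull (fst X Z) (a * b)) = c • 1) :
    pairZ b (C.ext a z) = c • z := by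
  rw [pairZ, TheoryData.ext, ← mul_assoc, ← map_mul, C.proj_right, chow_mul_comm b a, h,
    smul_mul_assoc, one_mul]

theorem pairZ_sum_ext [DecidableEq J]
    (h : ∀ t u, C.push (snd X Z) (C.pull (fst X Z) (D t * E u)) = if t = u then 1 else 0)
    (z : J → C.A Z) (u : J) : pairZ (E u) (∑ t, C.ext (D t) (z t)) = z u := by
  have h1 : pairZ (E u) (∑ t, C.ext (D t) (z t)) = ∑ t, pairZ (E u) (C.ext (D t) (z t)) := by
    unfold pairZ
    rw [Finset.mul_sum, map_sum]
  have h2 : ∀ t, pairZ (E u) (C.ext (D t) (z t)) = if t = u then z t else 0 := by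
    intro t
    rw [pairZ_ext (c := if t = u then 1 else 0) _ _ _ (by
      rw [h]
      split_ifs
      · rw [one_smul]
      · rw [zero_smul])]
    split_ifs
    · rw [one_smul]
    · rw [zero_smul]
  rw [h1, Finset.sum_congr rfl fun t _ => h2 t, Finset.sum_ite_eq', if_pos (Finset.mem_univ _)]

/-- The projector. -/
theorem act_projector (x : C.A (X.prod Z)) :
    C.act (CH.proj Z D E) x = ∑ j, C.ext (D j) (pairZ (E j) x) := by
  rw [CH.proj, act_sum]
  refine Finset.sum_congr rfl fun j _ => ?_
  rw [C.act_comp, CH.act_pairBy, CH.act_extBy]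
  rfl

theorem actH_projector [DecidableEq J]
    (h : ∀ t u, C.push (snd X Z) (C.pull (fst X Z) (D t * E u)) = if t = u then 1 else 0)
    (t : J) (y : H.A Z) :
    H.act (H.cl (CH.proj Z D E)) (H.ext (H.cl (D t)) y) = H.ext (H.cl (D t)) y := by
  rw [CH.proj, map_sum, act_sum]
  have h1 : ∀ l, H.act (H.cl (C.comp (CH.pairBy C Z (E l)) (CH.extBy C Z (D l))))
      (H.ext (H.cl (D t)) y) = if l = t then H.ext (H.cl (D t)) y else 0 := by
    intro l
    rw [CH.act_cl_comp]
    have h2 : H.act (H.cl (CH.pairBy C Z (E l))) (H.ext (H.cl (D t)) y) =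
        if t = l then y else 0 := by
      have h3 : H.cl (CH.pairBy C Z (E l)) = CH.pairBy H.toTheoryData Z (H.cl (E l)) := by
        rw [CH.pairBy, CH.pairBy, H.cl_push, H.cl_pull]
      rw [h3, CH.act_pairBy, TheoryData.ext, ← mul_assoc, ← map_mul, H.proj_right, ← map_mul,
        ← H.cl_pull, ← H.cl_push, chow_mul_comm (E l) (D t), h]
      split_ifs
      · rw [map_one, one_mul]
      · rw [map_zero, zero_mul]
    have h4 : H.cl (CH.extBy C Z (D l)) = CH.extBy H.toTheoryData Z (H.cl (D l)) :=
      CH.cl_extBy _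
    rw [h2]
    by_cases hl : t = l
    · subst hl
      rw [if_pos rfl, if_pos rfl, h4, CH.act_extBy]
    · rw [if_neg hl, if_neg (fun h => hl h.symm), H.act_map_zero]
  rw [Finset.sum_congr rfl fun l _ => h1 l, Finset.sum_ite_eq', if_pos (Finset.mem_univ _)]

end pairing

section kunneth

variable [IsAlgClosed K] {m : ℕ} {D E : Fin m → C.A X} {e : C.A (X.prod X)}

theorem frobenius_act {π : W ⟶ W} {Q : ℕ} (h : CK.IsFrobenius C π Q) (i : ℤ) (z : C.A W)
    (hz : z ∈ C.gr W i) : C.act (C.cograph π) z = (Q : ℚ) ^ i • z :=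
  CH.act_frobenius (isFrobenius_bridge h) i z hz

/-- **The Kunneth expansion.** -/
theorem expansion (hS : CH.IsStandard H) {πX : X ⟶ X} {πZ : Z ⟶ Z} {Q : ℕ}
    (hF : CK.IsFrobenius C (prodMap πX πZ) Q) (hX : HasAlgebraicEigenvalues H πX)
    (hZ : HasAlgebraicEigenvalues H πZ) (hnil : ProductsVanish H (X.prod Z))
    (hspan : ∀ (c : ℤ) (a : H.A X), IsGenEigen H πX ((Q : K) ^ c) a →
      H.act (H.cl e) a ∈ clSpan H e)
    (hD : ∀ t, InKZero e (D t))
    (hcl : clSpan H e ≤ Submodule.span K (Set.range fun t => H.cl (D t)))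
    (hE : ∀ t u, C.push (snd X Z) (C.pull (fst X Z) (D t * E u)) = if t = u then 1 else 0)
    {e' : C.A (Z.prod Z)} (hsep : AreSeparated H πX e πZ e' Q) {x : C.A (X.prod Z)}
    (hx : InKZero (tensor C e e') x) : x = ∑ j, C.ext (D j) (pairZ (E j) x) := by
  classical
  set p := CH.proj Z D E with hp
  have hpext : ∀ z : Fin m → C.A Z, C.act p (∑ j, C.ext (D j) (z j)) =
      ∑ j, C.ext (D j) (z j) := by
    intro z
    rw [hp, act_projector]
    exact Finset.sum_congr rfl fun j _ => by rw [pairZ_sum_ext hE]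
  have hq : ∀ y, C.act (C.comp (tensor C e e') (dg C (X.prod Z) - p)) y =
      C.act (tensor C e e') y - C.act p (C.act (tensor C e e') y) := by
    intro y
    rw [C.act_comp, C.act_sub, act_dg]
  set y := x - C.act p x with hy
  have htp : C.act (tensor C e e') (C.act p x) =
      ∑ j, C.ext (D j) (C.act e' (pairZ (E j) x)) := by
    rw [hp, act_projector, act_map_sum]
    refine Finset.sum_congr rfl fun j _ => ?_
    rw [act_tensor_ext, show C.act e (D j) = D j from hD j]
  have hfix : C.act (C.comp (tensor C e e') (dg C (X.prod Z) - p)) y = y := by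
    have h1 : C.act (tensor C e e') y = x - ∑ j, C.ext (D j) (C.act e' (pairZ (E j) x)) := by
      rw [hy, act_map_sub, htp, show C.act (tensor C e e') x = x from hx]
    rw [hq, h1, act_map_sub, hpext, hy]
    abel
  have hfin := hS.finite (X.prod Z)
  have h0 : y = 0 := by
    refine vanish_core (π := prodMap πX πZ) (Q := Q) (frobenius_act hF) hnil
      (algebraic_prod hS.finite hX hZ) _ (fun i w hw => ?_) y hfix
    have h1 := mem_prodSub hS.finite hw
    clear hw
    unfold prodSub at h1
    induction h1 using Submodule.span_induction with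
    | mem w hw =>
      obtain ⟨μ, ρ, a, z, hμρ, ha, hz, rfl⟩ := hw
      rw [CH.act_cl_comp, actH_tensor_ext]
      by_cases ha0 : H.act (H.cl e) a = 0
      · rw [ha0, H.ext_zero_left, H.act_map_zero]
      by_cases hz0 : H.act (H.cl e') z = 0
      · rw [hz0, H.ext_zero_right, H.act_map_zero]
      obtain ⟨d, hd⟩ := hsep μ ρ i ⟨a, ha, ha0⟩ ⟨z, hz, hz0⟩ hμρ
      rw [hd] at ha
      have h2 := hcl (hspan d a ha)
      generalize H.act (H.cl e) a = b at h2
      clear ha0
      induction h2 using Submodule.span_induction with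
      | mem b hb =>
        obtain ⟨t, rfl⟩ := hb
        rw [map_sub, H.act_sub, CH.act_cl_dg]
        beta_reduce
        rw [actH_projector hE, sub_self]
      | zero => rw [H.ext_zero_left, H.act_map_zero]
      | add b b' _ _ hb hb' => rw [CH.ext_add_left, act_map_add, hb, hb', add_zero]
      | smul c b _ hb => rw [ext_smul_left', act_map_smul, hb, smul_zero]
    | zero => rw [H.act_map_zero]
    | add w w' _ _ hw hw' => rw [act_map_add, hw, hw', add_zero]
    | smul c w _ hw => rw [act_map_smul, hw, smul_zero]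
  rw [hy, sub_eq_zero] at h0
  rw [← act_projector]
  exact h0

/-- **The classes are a basis of `K_0(X, e)_ℚ`.** -/
theorem isBasisOf (hS : CH.IsStandard H) {πX : X ⟶ X} {Q : ℕ}
    (hF : CK.IsFrobenius C πX Q) (hX : HasAlgebraicEigenvalues H πX)
    (hnil : ProductsVanish H X) (hT : IsTate H πX Q e)
    (hD : ∀ t, InKZero e (D t)) (hli : LinearIndependent K (fun t => H.cl (D t)))
    (hcl : clSpan H e ≤ Submodule.span K (Set.range fun t => H.cl (D t))) :
    IsBasisOf C e D where
  mem := hD
  unique := fun x hx => by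
    classical
    obtain ⟨E, hE⟩ := exists_duals hS hT.num hD hli X
    obtain ⟨deg, hdeg⟩ := exists_degree hS X X
    set p : C.A (X.prod X) := ∑ j, C.ext (E j) (D j) with hp
    have hactp : ∀ y, C.act p y = ∑ j, deg (y * E j) • D j := by
      intro y
      rw [hp, act_sum]
      refine Finset.sum_congr rfl fun j _ => ?_
      rw [C.act_apply, TheoryData.ext, chow_mul_comm (C.pull (fst X X) (E j)), mul_assoc,
        ← map_mul, C.proj_left, hdeg, chow_mul_comm (E j) y, mul_smul_comm, mul_one]
    have hdegD : ∀ t u, deg (D t * E u) = if t = u then 1 else 0 := by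
      intro t u
      have h1 := hdeg (D t * E u)
      rw [hE] at h1
      have h2 := one_ne_zero_chow hS X
      have h3 : ((if t = u then (1 : ℚ) else 0) - deg (D t * E u)) • (1 : C.A X) = 0 := by
        rw [sub_smul, ← h1]
        split_ifs
        · rw [one_smul, sub_self]
        · rw [zero_smul, sub_self]
      exact (sub_eq_zero.1 ((smul_eq_zero.1 h3).resolve_right h2)).symm
    have hpD : ∀ t, C.act p (D t) = D t := by
      intro t
      rw [hactp, Finset.sum_congr rfl fun j _ => by rw [hdegD, ite_smul, one_smul, zero_smul],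
        Finset.sum_ite_eq, if_pos (Finset.mem_univ _)]
    set y := x - C.act p x with hy
    have hpK : InKZero e (C.act p x) := by
      rw [hactp]
      exact inKZero_sum _ _ fun j _ => inKZero_smul _ (hD j)
    have hpp : C.act p (C.act p x) = C.act p x := by
      conv_lhs => rw [hactp x, act_map_sum]
      rw [Finset.sum_congr rfl fun j _ => by rw [act_map_smul, hpD], ← hactp]
    have hfix : C.act (C.comp e (dg C X - p)) y = y := by
      rw [C.act_comp, C.act_sub, act_dg, hy, act_map_sub, show C.act e x = x from hx,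
        show C.act e (C.act p x) = C.act p x from hpK, act_map_sub, hpp, sub_self, sub_zero]
    have hfin := hS.finite X
    have h0 : y = 0 := by
      refine vanish_core (π := πX) (Q := Q) (frobenius_act hF) hnil hX _ (fun i w hw => ?_) y hfix
      rw [CH.act_cl_comp]
      have h2 := hcl (hT.span i w hw)
      generalize H.act (H.cl e) w = b at h2
      induction h2 using Submodule.span_induction with
      | mem b hb =>
        obtain ⟨t, rfl⟩ := hb
        beta_reduce
        rw [map_sub, H.act_sub, CH.act_cl_dg, ← cl_act, hpD, sub_self]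
      | zero => rw [H.act_map_zero]
      | add b b' _ _ hb hb' => rw [act_map_add, hb, hb', add_zero]
      | smul c b _ hb => rw [act_map_smul, hb, smul_zero]
    rw [hy, sub_eq_zero] at h0
    refine ⟨fun j => deg (x * E j), ?_, fun c hc => ?_⟩
    · exact h0.trans (hactp x)
    · funext j
      rw [hc, Finset.sum_mul, map_sum, Finset.sum_congr rfl fun i _ => by
        rw [smul_mul_assoc, map_smul, hdegD, smul_eq_mul, mul_ite, mul_one, mul_zero],
        Finset.sum_ite_eq', if_pos (Finset.mem_univ _)]

theorem numTrivial_sum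
    (hE : ∀ t u, C.push (snd X Z) (C.pull (fst X Z) (D t * E u)) = if t = u then 1 else 0)
    (z : Fin m → C.A Z) :
    IsNumTrivial H (∑ j, times C (D j) (z j)) ↔ ∀ j, IsNumTrivial H (z j) := by
  constructor
  · intro h0 j w
    have h3 : pairZ (E j) (∑ i, C.ext (D i) (z i)) = z j := pairZ_sum_ext hE z j
    change H.tr Z (H.cl (z j * w)) = 0
    rw [← h3, pairZ, ← C.proj_right, H.cl_push, H.tr_push]
    have h4 : C.pull (fst X Z) (E j) * (∑ i, C.ext (D i) (z i)) * C.pull (snd X Z) w =
        (∑ i, times C (D i) (z i)) * (C.pull (fst X Z) (E j) * C.pull (snd X Z) w) := by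
      rw [chow_mul_comm (C.pull (fst X Z) (E j)), mul_assoc]
      rfl
    rw [h4]
    exact h0 _
  · intro h0 w
    change H.tr _ (H.cl ((∑ j, times C (D j) (z j)) * w)) = 0
    rw [Finset.sum_mul, map_sum, map_sum]
    refine Finset.sum_eq_zero fun j _ => ?_
    have h1 : times C (D j) (z j) * w =
        C.pull (snd X Z) (z j) * (C.pull (fst X Z) (D j) * w) := by
      change C.pull (fst X Z) (D j) * C.pull (snd X Z) (z j) * w = _
      rw [chow_mul_comm (C.pull (fst X Z) (D j)), mul_assoc]
    rw [h1, ← H.tr_push (snd X Z), ← H.cl_push, C.proj_left]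
    exact h0 j _

theorem tensorKunneth (hS : CH.IsStandard H) {πX : X ⟶ X} {πZ : Z ⟶ Z} {Q : ℕ}
    (hF : CK.IsFrobenius C (prodMap πX πZ) Q) (hX : HasAlgebraicEigenvalues H πX)
    (hZ : HasAlgebraicEigenvalues H πZ) (hnil : ProductsVanish H (X.prod Z))
    (hT : IsTate H πX Q e)
    (hD : ∀ t, InKZero e (D t)) (hli : LinearIndependent K (fun t => H.cl (D t)))
    (hcl : clSpan H e ≤ Submodule.span K (Set.range fun t => H.cl (D t)))
    {e' : C.A (Z.prod Z)} (hsep : AreSeparated H πX e πZ e' Q) :
    TensorKunneth H e e' D := by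
  classical
  obtain ⟨E, hE⟩ := exists_duals hS hT.num hD hli Z
  have hmem : ∀ (j : Fin m) (z : C.A Z), InKZero e' z →
      InKZero (tensor C e e') (times C (D j) z) := by
    intro j z hz
    change C.act (tensor C e e') (C.ext (D j) z) = C.ext (D j) z
    rw [act_tensor_ext, show C.act e (D j) = D j from hD j, show C.act e' z = z from hz]
  refine ⟨hmem, fun x hx => ?_, numTrivial_sum hE⟩
  have h1 := expansion hS hF hX hZ hnil hT.span hD hcl hE hsep hx
  refine ⟨fun j => pairZ (E j) x, ⟨fun j => ?_, h1⟩, fun z hz => ?_⟩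
  · have h2 : x = ∑ i, C.ext (D i) (C.act e' (pairZ (E i) x)) := by
      have h3 : C.act (tensor C e e') x = x := hx
      conv_lhs => rw [← h3, h1, act_map_sum]
      refine Finset.sum_congr rfl fun i _ => ?_
      rw [act_tensor_ext, show C.act e (D i) = D i from hD i]
    change C.act e' (pairZ (E j) x) = pairZ (E j) x
    conv_rhs => rw [h2]
    rw [pairZ_sum_ext hE]
  · funext j
    have h2 : x = ∑ i, C.ext (D i) (z i) := hz.2
    rw [h2, pairZ_sum_ext hE]

theorem nondegenerate_tensor {e' : C.A (Z.prod Z)} (h : TensorKunneth H e e' D)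
    (hE : ∀ t u, C.push (snd X Z) (C.pull (fst X Z) (D t * E u)) = if t = u then 1 else 0)
    (hJ : Nonempty (Fin m)) :
    IsNondegenerate H (tensor C e e') ↔ IsNondegenerate H e' := by
  classical
  constructor
  · intro h0 z hz hnum
    obtain ⟨j⟩ := hJ
    have h1 : times C (D j) z = ∑ i, times C (D i) (if i = j then z else 0) := by
      rw [Finset.sum_eq_single j]
      · rw [if_pos rfl]
      · intro i _ hij
        rw [if_neg hij]
        exact C.ext_zero_right _
      · intro hj
        exact absurd (Finset.mem_univ j) hj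
    have h2 : times C (D j) z = 0 := by
      refine h0 _ (h.mem j z hz) ?_
      rw [h1]
      refine (h.kernel _).2 fun i => ?_
      by_cases hij : i = j
      · rw [if_pos hij]
        exact hnum
      · rw [if_neg hij]
        intro w
        change H.tr Z (H.cl (0 * w)) = 0
        rw [zero_mul, map_zero, map_zero]
    have h3 := pairZ_sum_ext hE (fun i => if i = j then z else 0) j
    rw [if_pos rfl] at h3
    rw [← h3]
    change pairZ (E j) (∑ i, times C (D i) (if i = j then z else 0)) = 0
    rw [← h1, h2, pairZ, mul_zero, map_zero]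
  · intro h0 x hx hnum
    obtain ⟨z, ⟨hz1, hz2⟩, -⟩ := h.unique x hx
    rw [hz2] at hnum
    rw [hz2]
    refine Finset.sum_eq_zero fun j _ => ?_
    rw [h0 _ (hz1 j) ((h.kernel z).1 hnum j)]
    exact C.ext_zero_right _

/-- The kernel of the Euler pairing of `K_0(X, e)_ℚ` is zero. -/
theorem nondegenerate_of (hnum : ∀ x : C.A X, InKZero e x → IsNumTrivial H x → H.cl x = 0)
    (hD : IsBasisOf C e D) (hli : LinearIndependent K (fun t => H.cl (D t))) :
    IsNondegenerate H e := by
  intro x hx hxn
  obtain ⟨c, hc, -⟩ := hD.unique x hx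
  have h1 := hnum x hx hxn
  have h2 := Fintype.linearIndependent_iff.1 hli (fun t => (c t : K)) (by
    rw [← h1]
    conv_rhs => rw [show x = ∑ j, c j • D j from hc, map_sum]
    exact Finset.sum_congr rfl fun t _ => (CH.cl_smul _ _).symm)
  rw [show x = ∑ j, c j • D j from hc]
  refine Finset.sum_eq_zero fun j _ => ?_
  have h3 : c j = 0 := by exact_mod_cast h2 j
  rw [h3, zero_smul]

/-- The theorem. -/
theorem main (hS : CK.IsStandard H) {πX : X ⟶ X} {Q : ℕ} (h : IsTateMotive H πX Q e) :
    SatisfiesKunneth H πX Q e := by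
  have hS' := isStandard_bridge hS
  obtain ⟨-, hF, hX, hnil, hT⟩ := h
  obtain ⟨m, D, hD, hli, hcl⟩ := exists_classes hS' e
  have hbasis := isBasisOf hS' hF hX hnil hT hD hli hcl
  refine ⟨Fin m, inferInstance, D, hbasis, nondegenerate_of hT.num hbasis hli,
    fun Z πZ e' h' => ?_⟩
  obtain ⟨-, hFZ, hZ, hnilZ, hsep⟩ := h'
  obtain ⟨E, hE⟩ := exists_duals hS' hT.num hD hli Z
  have hk := tensorKunneth hS' hFZ hX hZ hnilZ hT hD hli hcl hsep
  exact ⟨hk, fun hJ => nondegenerate_tensor hk hE hJ⟩

end kunneth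

end Pool.Agent.T9h37.NK
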