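import Pool.Agent.T9h37.NK.Defs
import Pool.Agent.W484.CK.NCMain

/-!
# Vanishing from the nilpotence of the ideal of homologically trivial correspondences
-/

set_option autoImplicit false
set_option linter.unusedSectionVars false

open CategoryTheory AlgebraicGeometry

universe u v w

namespace Pool.Agent.T9h37.NK

open Module Polynomial Pool.Agent.H914 Pool.Agent.H914.VarClass Pool.Agent.H914.VarClass.Obj
  Pool.Agent.W492.BB Pool.Agent.W550.Corr Pool.Agent.W484.TB Pool.Agent.W484.HS Pool.Agent.W484.CK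
  Pool.Agent.W484

variable {k : Type u} [Field k] {𝒱 : VarClass k} {C : TheoryData.{u, v, 0} 𝒱 ℚ} {K : Type w}
  [Field K] {H : WeilTheoryData.{u, v, w} C K} [hC : IsChow C] [hH : IsWeil H]
  {W X Y Z : 𝒱.Obj}

theorem shift_eq (π : X ⟶ X) (μ : K) (n : ℕ) (a : H.A X) :
    (shift H π μ)^[n] a =
      (((H.pull π).toLinearMap - μ • (1 : Module.End K (H.A X))) ^ n) a := by
  have h1 : shift H π μ = fun b => ((H.pull π).toLinearMap - μ • (1 : Module.End K (H.A X))) b := by
    funext b
    rw [LinearMap.sub_apply, LinearMap.smul_apply, Module.End.one_apply]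
    rfl
  rw [Module.End.pow_apply, h1]

/-- A finite sum of elements of different degrees which is zero. -/
theorem sum_zero {F : Type w} [Field F] {δ : ℤ} (T : TheoryData.{u, v, w} 𝒱 F) [hT : IsTheory T δ]
    {X : 𝒱.Obj} (S : Finset ℤ) (g : ℤ → T.A X) (d : ℤ → ℤ) (hd : Function.Injective d)
    (hg : ∀ i ∈ S, g i ∈ T.gr X (d i)) (h0 : ∑ i ∈ S, g i = 0) : ∀ i ∈ S, g i = 0 := by
  classical
  have hind := ((T.isInternal X).submodule_iSupIndep).comp hd
  have h1 := (iSupIndep_iff_forall_dfinsupp _).1 hind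
  intro i hi
  have h2 : -g i = ∑ j ∈ S.erase i, g j := by
    rw [← Finset.add_sum_erase _ _ hi] at h0
    rw [eq_comm, ← sub_eq_zero, sub_neg_eq_add, add_comm]
    exact h0
  have h3 : g i ∈ ⨆ j, ⨆ (_ : j ≠ i), (T.gr X ∘ d) j := by
    rw [← neg_mem_iff, h2]
    refine Submodule.sum_mem _ fun j hj => ?_
    rw [Finset.mem_erase] at hj
    exact Submodule.mem_iSup_of_mem j (Submodule.mem_iSup_of_mem hj.1 (hg j hj.2))
  exact (Submodule.disjoint_def.1 (hind i)) _ (hg i hi) h3

theorem act_composite_append (L : List (C.A (W.prod W))) (Γ : C.A (W.prod W)) (z : C.A W) :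
    C.act (composite C (L ++ [Γ])) z = C.act Γ (C.act (composite C L) z) := by
  induction L generalizing z with
  | nil =>
    change C.act (compose C Γ (diagonal C W)) z = C.act Γ (C.act (diagonal C W) z)
    have h1 := C.act_comp Γ (dg C W) z
    change C.act (compose C Γ (diagonal C W)) z = _ at h1
    rw [h1, act_dg]
    change _ = C.act Γ (C.act (dg C W) z)
    rw [act_dg]
  | cons Δ L ih =>
    change C.act (compose C Δ (composite C (L ++ [Γ]))) z = C.act Γ (C.act (compose C Δ _) z)
    have h1 := C.act_comp Δ (composite C (L ++ [Γ])) z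
    have h2 := C.act_comp Δ (composite C L) z
    change C.act (compose C Δ _) z = _ at h1 h2
    rw [h1, h2, ih]

/-- Homogeneous components of a correspondence acting as zero act as zero. -/
theorem actsAsZero_component (S : Finset ℤ) (f : ℤ → C.A (W.prod W))
    (hf : ∀ i, f i ∈ C.gr (W.prod W) i) (h : ActsAsZero H (∑ i ∈ S, f i)) :
    ∀ i ∈ S, ActsAsZero H (f i) := by
  intro i hi a
  refine CH.homog_induction H.toTheoryData (p := fun a => H.act (H.cl (f i)) a = 0) ?_ ?_ a
  · intro m a ha
    have h1 := h a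
    rw [map_sum, act_sum] at h1
    refine sum_zero H.toTheoryData S (fun i => H.act (H.cl (f i)) a)
      (fun i => m + 2 * (i - W.dim)) (fun i j hij => ?_) (fun i _ => ?_) h1 i hi
    · have h2 : m + 2 * (i - (W.dim : ℤ)) = m + 2 * (j - (W.dim : ℤ)) := hij
      linarith
    · refine actH_mem H (e := i - W.dim) ?_ ha
      rw [show (W.dim : ℤ) + (i - W.dim) = i by ring]
      exact hf i
  · intro a b ha hb
    rw [act_map_add, ha, hb, add_zero]

/-- The submodules spanned by the values of products of `n` homogeneous correspondences acting as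
zero on the cohomology. -/
noncomputable def nilSub (H : WeilTheoryData.{u, v, w} C K) (W : 𝒱.Obj) : ℕ → Submodule ℚ (C.A W)
  | 0 => ⊤
  | n + 1 => Submodule.span ℚ {y | ∃ (Γ : C.A (W.prod W)) (z : C.A W) (i j : ℤ),
      ActsAsZero H Γ ∧ z ∈ nilSub H W n ∧ Γ ∈ C.gr (W.prod W) j ∧ z ∈ C.gr W i ∧ y = C.act Γ z}

theorem nilSub_homog (n : ℕ) (y : C.A W) (hy : y ∈ nilSub H W n) :
    y ∈ Submodule.span ℚ {z | z ∈ nilSub H W n ∧ ∃ i, z ∈ C.gr W i} := by
  cases n with
  | zero =>
    refine CH.homog_induction C (p := fun y => y ∈ Submodule.span ℚ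
      {z | z ∈ nilSub H W 0 ∧ ∃ i, z ∈ C.gr W i}) ?_ ?_ y
    · intro i a ha
      exact Submodule.subset_span ⟨Submodule.mem_top, i, ha⟩
    · intro a b ha hb
      exact Submodule.add_mem _ ha hb
  | succ n =>
    have hy' : y ∈ Submodule.span ℚ {y | ∃ (Γ : C.A (W.prod W)) (z : C.A W) (i j : ℤ),
      ActsAsZero H Γ ∧ z ∈ nilSub H W n ∧ Γ ∈ C.gr (W.prod W) j ∧ z ∈ C.gr W i ∧
        y = C.act Γ z} := hy
    refine Submodule.span_mono ?_ hy'
    rintro y ⟨Γ, z, i, j, h1, h2, h3, h4, rfl⟩
    refine ⟨Submodule.subset_span ⟨Γ, z, i, j, h1, h2, h3, h4, rfl⟩, i + (j - W.dim), ?_⟩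
    refine act_mem ?_ h4
    rw [show (W.dim : ℤ) + (j - W.dim) = j by ring]
    exact h3

theorem nilSub_composite (n : ℕ) (y : C.A W) (hy : y ∈ nilSub H W n) :
    y ∈ Submodule.span ℚ {y | ∃ (L : List (C.A (W.prod W))) (z : C.A W), L.length = n ∧
      (∀ Γ ∈ L, ActsAsZero H Γ) ∧ y = C.act (composite C L) z} := by
  induction n generalizing y with
  | zero =>
    refine Submodule.subset_span ⟨[], y, rfl, by simp, ?_⟩
    change y = C.act (dg C W) y
    rw [act_dg]
  | succ n ih =>
    have hy' : y ∈ Submodule.span ℚ {y | ∃ (Γ : C.A (W.prod W)) (z : C.A W) (i j : ℤ),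
      ActsAsZero H Γ ∧ z ∈ nilSub H W n ∧ Γ ∈ C.gr (W.prod W) j ∧ z ∈ C.gr W i ∧
        y = C.act Γ z} := hy
    refine (Submodule.span_le.2 ?_ : _ ≤ _) hy'
    rintro y ⟨Γ, z, i, j, h1, h2, -, -, rfl⟩
    have h3 := ih z h2
    clear h2
    induction h3 using Submodule.span_induction with
    | mem z hz =>
      obtain ⟨L, z', hL, hL', rfl⟩ := hz
      refine Submodule.subset_span ⟨L ++ [Γ], z', by simp [hL], ?_, ?_⟩
      · intro Δ hΔ
        rw [List.mem_append, List.mem_singleton] at hΔ
        rcases hΔ with h | rfl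
        · exact hL' Δ h
        · exact h1
      · rw [act_composite_append]
    | zero =>
      rw [C.act_map_zero]
      exact Submodule.zero_mem _
    | add x y _ _ hx hy =>
      rw [act_map_add]
      exact Submodule.add_mem _ hx hy
    | smul c x _ hx =>
      rw [act_map_smul]
      exact Submodule.smul_mem _ _ hx

theorem nilSub_eq_bot (h : ProductsVanish H W) : ∃ n, nilSub H W n = ⊥ := by
  obtain ⟨n, hn⟩ := h
  refine ⟨n, (Submodule.eq_bot_iff _).2 fun y hy => ?_⟩
  have h1 := nilSub_composite n y hy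
  have h2 : Submodule.span ℚ {y | ∃ (L : List (C.A (W.prod W))) (z : C.A W), L.length = n ∧
      (∀ Γ ∈ L, ActsAsZero H Γ) ∧ y = C.act (composite C L) z} ≤ ⊥ := by
    refine Submodule.span_le.2 ?_
    rintro y ⟨L, z, hL, hL', rfl⟩
    rw [hn L hL hL', C.act_zero]
    exact Submodule.zero_mem _
  exact (Submodule.mem_bot _).1 (h2 h1)

variable [CharZero K] [IsAlgClosed K]

/-- **Vanishing.** Let `q` be a correspondence which kills the generalized eigenvectors of Frobenius
with eigenvalues the powers of `Q`. Then the classes fixed by `q` are zero. -/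
theorem vanish_core [Module.Finite K (H.A W)] {π : W ⟶ W} {Q : ℕ}
    (hπ : ∀ (i : ℤ) (z : C.A W), z ∈ C.gr W i → C.act (C.cograph π) z = (Q : ℚ) ^ i • z)
    (hnil : ProductsVanish H W) (halg : HasAlgebraicEigenvalues H π) (q : C.A (W.prod W))
    (hkill : ∀ (i : ℤ) (w : H.A W), IsGenEigen H π ((Q : K) ^ i) w → H.act (H.cl q) w = 0)
    (x : C.A W) (hx : C.act q x = x) : x = 0 := by
  have key : ∀ n i (z : C.A W), z ∈ nilSub H W n → z ∈ C.gr W i →
      C.act q z ∈ nilSub H W (n + 1) := by
    intro n i z hz hzi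
    obtain ⟨P, hP, m, hPm⟩ := CH.exists_poly (CH.frob H π) ((Q : ℚ) ^ i)
      (fun μ v hv0 hv => isAlgebraic_iff_isIntegral.1 (halg μ v hv0 hv))
    have hθ0 : ActsAsZero H (C.comp (CH.polyC π P) q) := by
      intro a
      rw [CH.act_cl_comp, CH.act_cl_polyC]
      refine hkill i _ ⟨m, ?_⟩
      rw [shift_eq]
      have h1 := hPm a
      push_cast at h1
      exact h1
    have hθz : C.act (C.comp (CH.polyC π P) q) z = P.eval ((Q : ℚ) ^ i) • C.act q z := by
      rw [C.act_comp, ← act_map_smul]
      congr 1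
      exact CH.act_polyC CH.chowData_isCorrTheory (T := CH.chowData C)
        (fun i m hm => hπ i m hm) hzi P
    obtain ⟨S, f, hf, hS⟩ := exists_expansion (C := C) (C.comp (CH.polyC π P) q)
    rw [hS] at hθ0 hθz
    have h2 := actsAsZero_component S f hf hθ0
    have h3 : C.act (∑ i ∈ S, f i) z ∈ nilSub H W (n + 1) := by
      rw [act_sum]
      exact Submodule.sum_mem _ fun l hl =>
        Submodule.subset_span ⟨f l, z, i, l, h2 l hl, hz, hf l, hzi, rfl⟩
    rw [hθz] at h3
    have h4 := Submodule.smul_mem _ (P.eval ((Q : ℚ) ^ i))⁻¹ h3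
    rwa [smul_smul, inv_mul_cancel₀ hP, one_smul] at h4
  have hall : ∀ n, x ∈ nilSub H W n := by
    intro n
    induction n with
    | zero => exact Submodule.mem_top
    | succ n ih =>
      have h1 := nilSub_homog n x ih
      rw [← hx]
      clear ih hx
      induction h1 using Submodule.span_induction with
      | mem z hz =>
        obtain ⟨h2, i, h3⟩ := hz
        exact key n i z h2 h3
      | zero =>
        rw [C.act_map_zero]
        exact Submodule.zero_mem _
      | add x y _ _ hx hy =>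
        rw [act_map_add]
        exact Submodule.add_mem _ hx hy
      | smul c x _ hx =>
        rw [act_map_smul]
        exact Submodule.smul_mem _ _ hx
  obtain ⟨n, hn⟩ := nilSub_eq_bot hnil
  have h1 := hall n
  rw [hn] at h1
  exact (Submodule.mem_bot _).1 h1

end Pool.Agent.T9h37.NK
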